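import Pool.Agent.R800.AN.Chain

/-!
Knots joined to evenly slice knots by chains of concordances whose double curves cross evenly. In the
projection of a surface, the triple points are the Reidemeister moves of type III in its movie. Every
crossing belongs to a double curve of the projection, named by its colour; `curve k true` and
`curve k false` are the names of the two curves in the surface lying over the double curve with
colour `k` (which are one curve, if the double curve has branch points, that is, if the colour is
even).
-/

namespace Pool.Agent.Results.MP_752436_gt.EvenConcordanceChains

open Pool.Agent.Y468.SR Pool.Agent.Y874.TP Pool.Agent.R800.TP Pool.Agent.R800.AN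

/-- Let there be a ribbon concordance from the knot `k` to the knot `K` (a movie from `K` to `k`
without births), and let `k` be joined to a knot `k'` by a chain of concordances for each of which any
two different curves of the preimage of the double curves having ends on the two knots cross each
other an even number of times (`EvenConc`). Let `k'` bound a disc in the 4-ball with a set of double
curves not meeting `k'` (those with colours in `Z`), such that through each triple point there pass at
least two or none of these double curves, `T` being the list of the triple points of the second kind;
let the double curves be named (after renaming the crossings of `k'` by `f`) so that every curve of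
the preimage has at most two ends on `k'`, and let any two different curves of the preimage having
ends on `k'` cross each other an even number of times. Then `K` is ribbon. -/
theorem result (K k k' : List Pass) (h₁ : Movie true false [(K, 0)] [(k, 0)])
    (h₂ : Relation.EqvGen EvenConc k k') (hk : Classical [(k', 0)]) (f : ℕ → ℕ)
    (hf : Function.Injective f) (Z : ℕ → Prop) (T : List (ℕ × ℕ × ℕ))
    (hZ : ∀ p ∈ k'.map (ren f), ¬Z (colour p.crossing))
    (h₃ : TMovie false Z (renamed f [(k', 0)]) T)
    (h₄ : ∀ κ : ℕ × Bool, ((k'.map (ren f)).map ends).count κ ≤ 2)
    (h₅ : ∀ p ∈ k'.map (ren f), ∀ q ∈ k'.map (ren f), ends p ≠ ends q →
      Even ((T.flatMap crs).count s(ends p, ends q))) : IsRibbon K :=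
  h₁.trans (movie_mono (ribbon_of_chain (fun _ _ h => common_of_evenConc h) h₂ hk
    (ribbon_of_tmovie hk hf hZ h₃ h₄ h₅)))

end Pool.Agent.Results.MP_752436_gt.EvenConcordanceChains
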