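import Pool.Agent.R800.TP.EvenC

/-!
Slice discs with arbitrarily many triple points whose double curves ending on the link cross one
another evenly. In the projection of a surface, the triple points are the Reidemeister moves of type
III in its movie. The movies here go from the link into the 4-ball, so that births of components are
the local maxima of the distance from the centre of the 4-ball. Every crossing belongs to a double
curve of the projection, named by its colour; `curve k true` and `curve k false` are the names of the
two curves in the surface lying over the double curve with colour `k` (which are one curve, if the
double curve has branch points, that is, if the colour is even).
-/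

namespace Pool.Agent.Results.MP_752436_gt.EvenCrossings

open Pool.Agent.Y468.SR Pool.Agent.Y874.TP Pool.Agent.R800.TP

/-- Let the classical link with Gauss code `L` bound disjoint discs in the 4-ball by a movie, and let
`D` be the link in this movie before the first birth of a component. The discs bounded by `D` are
arbitrary: `T` is the list of all their triple points. Let the double curves be named so that every
curve of the preimage has at most two ends on `D`. Suppose that any two different curves of the
preimage having ends on `D` cross each other an even number of times. Then `L` bounds disjoint ribbon
discs, i.e. discs given by a movie without births. There is no condition on the number of triple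
points, on self-crossings of the curves, or on curves without ends on `D`. -/
theorem result (L : List (List Pass)) (D : Code) (T : List (ℕ × ℕ × ℕ))
    (h₁ : Movie true false L.zipIdx D) (h₂ : TMovie false (fun _ => False) D T)
    (h₃ : ∀ κ : ℕ × Bool, ((passes D).map ends).count κ ≤ 2)
    (h₄ : ∀ p ∈ passes D, ∀ q ∈ passes D, ends p ≠ ends q →
      Even ((T.flatMap crs).count s(ends p, ends q))) :
    Movie true false L.zipIdx [] := by
  have hn : (L.zipIdx.map Prod.snd).Nodup := by
    rw [List.zipIdx_map_snd]
    exact List.nodup_range'
  exact h₁.trans (even_ribbon h₂ (fun _ _ h => h) (nodup_movie h₁ hn) h₃ h₄)

end Pool.Agent.Results.MP_752436_gt.EvenCrossings
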