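import Pool.Agent.R800.AN.Chain
import Pool.Agent.R800.IR.Irr

/-!
Knots joined to ribbon knots with irreducible diagrams by chains of concordances whose double curves
cross evenly. In the projection of a surface, the triple points are the Reidemeister moves of type
III in its movie. Every crossing belongs to a double curve of the projection, named by its colour;
`curve k true` and `curve k false` are the names of the two curves in the surface lying over the
double curve with colour `k` (which are one curve, if the double curve has branch points, that is, if
the colour is even).
-/

namespace Pool.Agent.Results.MP_752436_gt.IrreducibleDiagrams

open Pool.Agent.Y468.SR Pool.Agent.Y874.TP Pool.Agent.R800.TP Pool.Agent.R800.AN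
open Pool.Agent.R800.IR

/-- Let there be a ribbon concordance from the knot `k₀` to the knot `K` (a movie from `K` to `k₀`
without births), and let `k₀` be joined to a knot `k` by a chain of concordances for each of which any
two different curves of the preimage of the double curves having ends on the two knots cross each
other an even number of times (`EvenConc`). Let the diagram `k` have no kinks, and let any two
crossings through which the knot passes in succession on the same side (above or below) have the same
sign (`Irr`), for instance let `k` be alternating without kinks. If `k` is ribbon, by an
arbitrary ribbon disc, then `K` is ribbon. -/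
theorem result (K k₀ k : List Pass) (h₁ : Movie true false [(K, 0)] [(k₀, 0)])
    (h₂ : Relation.EqvGen EvenConc k₀ k) (h₃ : Irr k) (h₄ : IsRibbon k) : IsRibbon K := by
  have hk : Classical [(k, 0)] := by
    rcases Relation.ReflTransGen.cases_head h₄ with h | ⟨D, h, -⟩
    · simp at h
    · exact h.1
  obtain ⟨m₁, m₂⟩ := movie_of_eqvGen (fun _ _ h => common_of_evenConc h) h₂
  have hk₀ := classical_of_movie m₂ hk
  exact h₁.trans ((movie_mono (ribbon_to_irr hk₀ hk h₃ m₁)).trans h₄)

end Pool.Agent.Results.MP_752436_gt.IrreducibleDiagrams
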